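import Pool.Agent.helper34.AC.Spec2

/-!
# Project ac: (MP_e0bd72_co), module TAN: tangent lines
-/

set_option autoImplicit false

namespace Pool.Agent.helper34.AC

theorem TAN (hWEX : WEX_stmt) : TAN_stmt := by
  intro x y hx hy
  obtain ⟨hr0, hr⟩ := hWEX.1 x hx
  obtain ⟨hs0, hs⟩ := hWEX.1 y hy
  unfold psi
  obtain ⟨r, hrd⟩ : ∃ r : ℝ, r = W x := ⟨_, rfl⟩
  obtain ⟨s, hsd⟩ : ∃ s : ℝ, s = W y := ⟨_, rfl⟩
  rw [← hrd] at hr0 hr ⊢
  rw [← hsd] at hs0 hs ⊢
  have h1 : (0 : ℝ) < 1 + r := by linarith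
  have her : 0 < Real.exp r := Real.exp_pos r
  have hes : 0 < Real.exp s := Real.exp_pos s
  constructor
  · have h2 : Real.exp s - Real.exp r ≤ (y - x) / (1 + r) := by
      rw [le_div_iff₀ h1, ← hr, ← hs]
      have h3 : (r - s) + 1 ≤ Real.exp (r - s) := Real.add_one_le_exp _
      have h4 : Real.exp s * Real.exp (r - s) = Real.exp r := by
        rw [← Real.exp_add]; congr 1; ring
      have h5 := mul_le_mul_of_nonneg_left h3 hes.le
      rw [h4] at h5
      nlinarith
    linarith
  · have h2 : s - r ≤ (y - x) / ((1 + r) * Real.exp r) := by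
      rw [le_div_iff₀ (by positivity), ← hr, ← hs]
      have h3 : (s - r) + 1 ≤ Real.exp (s - r) := Real.add_one_le_exp _
      have h4 : Real.exp r * Real.exp (s - r) = Real.exp s := by
        rw [← Real.exp_add]; congr 1; ring
      have h5 : s * ((s - r) + 1) ≤ s * Real.exp (s - r) := mul_le_mul_of_nonneg_left h3 hs0
      have h6 : (s - r) * (1 + r) + r ≤ s * Real.exp (s - r) := by nlinarith [sq_nonneg (s - r)]
      have h7 := mul_le_mul_of_nonneg_left h6 her.le
      have h8 : Real.exp r * (s * Real.exp (s - r)) = s * Real.exp s := by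
        rw [← h4]; ring
      rw [h8] at h7
      nlinarith
    linarith

end Pool.Agent.helper34.AC
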