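import Pool.Agent.helper34.AC.Spec3

/-!
# Project ac: (MP_e0bd72_co), module RTS: the roots of the Touchard polynomials
-/

set_option autoImplicit false

open Filter Topology

namespace Pool.Agent.helper34.AC

open Polynomial in
theorem RTS_deg (n : ℕ) : (Tou n).Monic ∧ (Tou n).natDegree = n := by
  induction n with
  | zero =>
    have h : Tou 0 = 1 := rfl
    rw [h]
    exact ⟨monic_one, natDegree_one⟩
  | succ n ih =>
    obtain ⟨hm, hd⟩ := ih
    have hlt : (Polynomial.derivative (Tou n)).degree < (Tou n).degree :=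
      degree_derivative_lt hm.ne_zero
    have hS : (Tou n + Polynomial.derivative (Tou n)).Monic := hm.add_of_left hlt
    have hSd : (Tou n + Polynomial.derivative (Tou n)).natDegree = n := by
      rw [natDegree_add_eq_left_of_degree_lt hlt, hd]
    have h : Tou (n + 1) = X * (Tou n + Polynomial.derivative (Tou n)) := rfl
    rw [h]
    refine ⟨monic_X.mul hS, ?_⟩
    rw [natDegree_X_mul hS.ne_zero, hSd]

open Polynomial in
theorem RTS_coeff (n k : ℕ) : 0 ≤ (Tou n).coeff k := by
  induction n generalizing k with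
  | zero =>
    have h : Tou 0 = 1 := rfl
    rw [h, coeff_one]
    split_ifs <;> norm_num
  | succ n ih =>
    have h : Tou (n + 1) = X * (Tou n + Polynomial.derivative (Tou n)) := rfl
    rw [h]
    cases k with
    | zero => simp
    | succ k =>
      rw [coeff_X_mul, coeff_add, coeff_derivative]
      have h1 := ih k
      have h2 := ih (k + 1)
      have h3 : (0 : ℝ) ≤ (k : ℝ) + 1 := by positivity
      exact add_nonneg h1 (mul_nonneg h2 h3)

open Polynomial in
theorem RTS_roots (hRLE : RLE_stmt) (n : ℕ) : Multiset.card (Tou n).roots = n := by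
  induction n with
  | zero =>
    have h : Tou 0 = 1 := rfl
    rw [h, roots_one]
    rfl
  | succ n ih =>
    obtain ⟨hm, hd⟩ := RTS_deg n
    have hlt : (Polynomial.derivative (Tou n)).degree < (Tou n).degree :=
      degree_derivative_lt hm.ne_zero
    obtain ⟨S, hSdef⟩ : ∃ S, S = Tou n + Polynomial.derivative (Tou n) := ⟨_, rfl⟩
    have hS : S.Monic := by rw [hSdef]; exact hm.add_of_left hlt
    have hSd : S.natDegree = n := by
      rw [hSdef, natDegree_add_eq_left_of_degree_lt hlt, hd]
    have h1 := hRLE (Tou n)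
    rw [← hSdef, ih] at h1
    obtain ⟨q, hq1, hq2, hq3⟩ := exists_prod_multiset_X_sub_C_mul S
    rw [hSd] at hq2
    have hq4 : q.natDegree ≠ 1 := by
      intro h
      have hdeg : q.degree = 1 := by
        rw [degree_eq_natDegree (by rintro rfl; simp at h), h]
        rfl
      obtain ⟨x, hx⟩ := exists_root_of_degree_eq_one hdeg
      have hx' : x ∈ q.roots := (mem_roots (by rintro rfl; simp at h)).2 hx
      rw [hq3] at hx'
      simp at hx'
    have hcard : Multiset.card S.roots = n := by omega
    have h : Tou (n + 1) = X * S := by rw [hSdef]; rfl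
    rw [h, roots_mul (mul_ne_zero X_ne_zero hS.ne_zero), roots_X, Multiset.card_add, hcard,
      Multiset.card_singleton, add_comm]

open Polynomial in
theorem RTS_neg (n : ℕ) (a : ℝ) (ha : a ∈ (Tou n).roots) : a ≤ 0 := by
  by_contra hcon
  push Not at hcon
  obtain ⟨hm, hd⟩ := RTS_deg n
  have h1 : (Tou n).eval a = 0 := (mem_roots hm.ne_zero).1 ha
  rw [eval_eq_sum_range] at h1
  have h2 : ∀ i ∈ Finset.range ((Tou n).natDegree + 1), 0 ≤ (Tou n).coeff i * a ^ i :=
    fun i _ => mul_nonneg (RTS_coeff n i) (by positivity)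
  have h3 := (Finset.sum_eq_zero_iff_of_nonneg h2).1 h1 (Tou n).natDegree
    (Finset.mem_range.2 (Nat.lt_succ_self _))
  have h4 : (Tou n).coeff (Tou n).natDegree = 1 := hm
  rw [h4, one_mul] at h3
  have h5 : 0 < a ^ (Tou n).natDegree := by positivity
  linarith

open Polynomial in
theorem RTS_list (l : List ℝ) (n : ℕ) (h : l.length = n) (hl : ∀ a ∈ l, a ≤ 0) :
    ∃ r : Fin n → ℝ, (∀ i, 0 ≤ r i) ∧
      (l.map fun a => (X - C a : Polynomial ℝ)).prod = ∏ i, (X + C (r i)) := by
  subst h
  refine ⟨fun i => -l[i.1], fun i => ?_, ?_⟩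
  · have := hl _ (List.getElem_mem i.2)
    linarith
  · rw [← Fin.prod_univ_fun_getElem]
    refine Finset.prod_congr rfl fun i _ => ?_
    rw [C_neg, sub_eq_add_neg]

open Polynomial in
theorem RTS (hRLE : RLE_stmt) : RTS_stmt := by
  intro n
  obtain ⟨hm, hd⟩ := RTS_deg n
  have hc := RTS_roots hRLE n
  have h1 := prod_multiset_X_sub_C_of_monic_of_roots_card_eq hm (by rw [hc, hd])
  obtain ⟨l, hl⟩ : ∃ l : List ℝ, (l : Multiset ℝ) = (Tou n).roots :=
    ⟨(Tou n).roots.toList, Multiset.coe_toList _⟩
  rw [← hl] at hc h1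
  obtain ⟨r, hr0, hr⟩ := RTS_list l n (by simpa using hc) (fun a ha =>
    RTS_neg n a (by rw [← hl]; simpa using ha))
  refine ⟨r, hr0, ?_⟩
  rw [← hr, ← h1]
  simp

end Pool.Agent.helper34.AC
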