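import Pool.Agent.helper34.AC.Spec4

set_option autoImplicit false

namespace Pool.Agent.helper34.AC

/-- Natural number division of `r (r-1)` by two. -/
theorem FCH_half (r : ℕ) : 2 * (r * (r - 1) / 2) = r * (r - 1) := by
  have h : Even (r * (r - 1)) := by
    rcases r with _ | s
    · simp
    · have := Nat.even_mul_succ_self s
      rw [Nat.add_sub_cancel, mul_comm]
      exact this
  exact Nat.mul_div_cancel' (even_iff_two_dvd.mp h)

theorem FCH_halfR (r : ℕ) : ((r * (r - 1) / 2 : ℕ) : ℝ) = (r : ℝ) * ((r : ℝ) - 1) / 2 := by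
  have h := FCH_half r
  have h2 : (2 : ℝ) * ((r * (r - 1) / 2 : ℕ) : ℝ) = ((r * (r - 1) : ℕ) : ℝ) := by
    exact_mod_cast h
  have h3 : ((r * (r - 1) : ℕ) : ℝ) = (r : ℝ) * ((r : ℝ) - 1) := by
    rcases r with _ | s
    · simp
    · push_cast
      simp
  linarith

theorem FCH_num (k : ℕ) (g x a N N1 L : ℝ) (hx : 0 < x) (hg : 0 < g) (hN : 0 < N)
    (h1 : (a + 1) * N = N1)
    (h2 : (g + ((k : ℝ) + 1) * (1 - 1 / (4 * (k : ℝ) + 4)) * (x / g)) * N ≤ N1)
    (h3 : L + 1 ≤ g + (k : ℝ) * (1 + 1 / (4 * (k : ℝ) + 4)) * (x / g)) : L < a := by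
  have hc : 0 < x / g := div_pos hx hg
  have hk : (0 : ℝ) ≤ (k : ℝ) := Nat.cast_nonneg k
  rw [← h1] at h2
  have h4 := le_of_mul_le_mul_right h2 hN
  have h5 : (k : ℝ) * (1 + 1 / (4 * (k : ℝ) + 4)) < ((k : ℝ) + 1) * (1 - 1 / (4 * (k : ℝ) + 4)) := by
    have hd : (0 : ℝ) < 4 * (k : ℝ) + 4 := by linarith
    have e1 : ((k : ℝ) + 1) * (1 - 1 / (4 * (k : ℝ) + 4)) = (k : ℝ) + 3 / 4 := by
      field_simp
      ring
    have e2 : (k : ℝ) * (1 + 1 / (4 * (k : ℝ) + 4)) ≤ (k : ℝ) + 1 / 4 := by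
      have : (k : ℝ) * (1 / (4 * (k : ℝ) + 4)) ≤ 1 / 4 := by
        rw [mul_one_div, div_le_div_iff₀ hd (by norm_num)]
        linarith
      nlinarith
    linarith
  have h6 := mul_lt_mul_of_pos_right h5 hc
  linarith

theorem FCH (hCST : CST_stmt) (hGRA : GRA_stmt) (hISA : ISA_stmt) (hLUP : LUP_stmt)
    (hAVG : AVG_stmt) (hEPC : EPC_stmt) (hASY : ASY_stmt) : FCH_stmt := by
  intro r
  set k : ℕ := r * (r - 1) / 2 with hk
  have hk2 : 2 * k = r * (r - 1) := FCH_half r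
  have hkR : (k : ℝ) = (r : ℝ) * ((r : ℝ) - 1) / 2 := FCH_halfR r
  have he : (0 : ℝ) < 1 / (4 * (k : ℝ) + 4) := by positivity
  obtain ⟨M1, hM1⟩ := hCST (k + 1) (1 / (4 * (k : ℝ) + 4)) he
  obtain ⟨M2, hM2⟩ := hLUP r (1 / (4 * (k : ℝ) + 4)) he
  obtain ⟨M3, hM3⟩ := hASY 1 one_pos
  refine ⟨M1 + M2 + M3, ?_⟩
  intro V _ G hn hchi
  classical
  obtain ⟨hge, heq⟩ := hGRA V G r hchi
  by_cases hc : ep G Finset.univ = r * (r - 1)
  · have hiso := heq hc
    have h := hISA V (Fin (Fintype.card V)) G (KU (Fintype.card V) r) hiso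
    have h' : avg G = L2 (Fintype.card V) r := h
    exact ⟨h'.symm.le, fun _ => hiso, fun _ => h'⟩
  · have hev := (hEPC V G Finset.univ).1
    have hep : 2 * (k + 1) ≤ ep G Finset.univ := by
      obtain ⟨t, ht⟩ := hev
      omega
    obtain ⟨hN, hA, _⟩ := hAVG V G
    have hcard : (Finset.univ : Finset V).card = Fintype.card V := Finset.card_univ
    have h1 := hM1 V G Finset.univ (by rw [hcard]; omega) hep
    rw [hcard] at h1
    have h2 := hM2 (Fintype.card V) (by omega)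
    obtain ⟨_, _, _, ha8, hao, _, _, hx⟩ := hM3 (Fintype.card V) (by omega)
    have hg : 0 < gb (Fintype.card V) := by
      have ho : (0 : ℝ) < 1 + om (Fintype.card V) := by
        have : (1 : ℝ) / 1 = 1 := by norm_num
        rw [this] at hao
        linarith
      have := pow_pos ho 8
      linarith
    rw [← hkR] at h2
    have hlt : L2 (Fintype.card V) r < avg G := by
      refine FCH_num k (gb (Fintype.card V)) (xx (Fintype.card V)) (avg G) (N G Finset.univ)
        (N1 G Finset.univ) (L2 (Fintype.card V) r) hx hg hN hA ?_ h2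
      have hcast : ((k + 1 : ℕ) : ℝ) = (k : ℝ) + 1 := by push_cast; ring
      rw [hcast] at h1
      exact h1
    refine ⟨hlt.le, fun h => absurd h hlt.ne', fun h => ?_⟩
    have h' : avg G = L2 (Fintype.card V) r := hISA V (Fin (Fintype.card V)) G (KU (Fintype.card V) r) h
    exact absurd h' hlt.ne'

end Pool.Agent.helper34.AC
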